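import Pool.Agent.V5helper19.QC.Stm

/-!
# Project QC, jobs CO and FOUR
-/

set_option autoImplicit false

namespace V5helper81.QC

open Finset
open V5helper19.QC (S_CO S_FOUR)

/-- orthogonality of the exponentials -/
theorem int_exp (m : ℤ) :
    ∫ θ in (-Real.pi)..Real.pi, Complex.exp ((m : ℂ) * Complex.I * (θ : ℂ)) =
      if m = 0 then 2 * (Real.pi : ℂ) else 0 := by
  split_ifs with h
  · subst h
    simp only [Int.cast_zero, zero_mul, Complex.exp_zero, intervalIntegral.integral_const,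
      sub_neg_eq_add, Complex.real_smul, Complex.ofReal_add, mul_one]
    ring
  · have hm : ((m : ℂ) * Complex.I) ≠ 0 :=
      mul_ne_zero (by exact_mod_cast h) Complex.I_ne_zero
    rw [integral_exp_mul_complex hm]
    have h1 : Complex.exp ((m : ℂ) * Complex.I * (Real.pi : ℂ)) =
        Complex.exp ((m : ℂ) * Complex.I * ((-Real.pi : ℝ) : ℂ)) := by
      rw [Complex.exp_eq_exp_iff_exists_int]
      refine ⟨m, ?_⟩
      push_cast
      ring
    rw [h1, sub_self, zero_div]

theorem int_sum (N : ℕ) (f : ℕ → ℂ) (r : ℕ) (ε : ℤ) (hε : ε = 1 ∨ ε = -1) :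
    ∫ θ in (-Real.pi)..Real.pi, (∑ i ∈ range (N + 1), f i *
        Complex.exp (((ε * i : ℤ) : ℂ) * Complex.I * (θ : ℂ))) *
        Complex.exp (((-ε * r : ℤ) : ℂ) * Complex.I * (θ : ℂ)) =
      2 * (Real.pi : ℂ) * (if r ≤ N then f r else 0) := by
  have h1 : ∀ θ : ℝ, (∑ i ∈ range (N + 1), f i *
        Complex.exp (((ε * i : ℤ) : ℂ) * Complex.I * (θ : ℂ))) *
        Complex.exp (((-ε * r : ℤ) : ℂ) * Complex.I * (θ : ℂ)) =
      ∑ i ∈ range (N + 1), f i *
        Complex.exp (((ε * i - ε * r : ℤ) : ℂ) * Complex.I * (θ : ℂ)) := by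
    intro θ
    rw [sum_mul]
    refine sum_congr rfl fun i _ => ?_
    rw [mul_assoc, ← Complex.exp_add]
    congr 2
    push_cast
    ring
  simp_rw [h1]
  rw [intervalIntegral.integral_finsetSum]
  · simp_rw [intervalIntegral.integral_const_mul, int_exp]
    have h2 : ∀ i : ℕ, (ε * i - ε * r : ℤ) = 0 ↔ i = r := by
      intro i
      rcases hε with rfl | rfl
      · constructor
        · intro h; omega
        · intro h; subst h; ring
      · constructor
        · intro h; omega
        · intro h; subst h; ring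
    simp_rw [h2]
    simp only [mul_ite, mul_zero]
    rw [sum_ite_eq']
    simp only [mem_range, Nat.lt_succ_iff]
    split_ifs
    · ring
    · rfl
  · intro i _
    apply Continuous.intervalIntegrable
    fun_prop

theorem t_CO : S_CO := by
  intro N f s B hs hB r hr
  have hpi : (0 : ℝ) < 2 * Real.pi := by positivity
  have h1 := int_sum N (fun i => f i * (s : ℂ) ^ i) r 1 (Or.inl rfl)
  rw [if_pos hr] at h1
  have h2 : ∀ θ : ℝ, ‖(∑ i ∈ range (N + 1), (f i * (s : ℂ) ^ i) *
        Complex.exp (((1 * i : ℤ) : ℂ) * Complex.I * (θ : ℂ))) *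
        Complex.exp (((-1 * r : ℤ) : ℂ) * Complex.I * (θ : ℂ))‖ ≤ B := by
    intro θ
    rw [norm_mul]
    have e1 : ‖Complex.exp (((-1 * r : ℤ) : ℂ) * Complex.I * (θ : ℂ))‖ = 1 := by
      have : ((-1 * r : ℤ) : ℂ) * Complex.I * (θ : ℂ) = ((((-1 * r : ℤ) : ℝ) * θ : ℝ) : ℂ) * Complex.I := by
        push_cast
        ring
      rw [this, Complex.norm_exp_ofReal_mul_I]
    rw [e1, mul_one]
    refine le_trans (le_of_eq ?_) (hB θ)
    congr 1
    refine sum_congr rfl fun i _ => ?_
    rw [mul_pow, ← Complex.exp_nat_mul, mul_assoc]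
    congr 3
    push_cast
    ring
  have h3 := intervalIntegral.norm_integral_le_of_norm_le_const (a := -Real.pi) (b := Real.pi)
    (C := B) (f := fun θ : ℝ => (∑ i ∈ range (N + 1), (f i * (s : ℂ) ^ i) *
        Complex.exp (((1 * i : ℤ) : ℂ) * Complex.I * (θ : ℂ))) *
        Complex.exp (((-1 * r : ℤ) : ℂ) * Complex.I * (θ : ℂ))) (fun θ _ => h2 θ)
  rw [h1] at h3
  have h4 : |Real.pi - -Real.pi| = 2 * Real.pi := by
    rw [abs_of_pos (by linarith)]
    ring
  rw [h4, norm_mul, norm_mul, norm_mul, norm_pow, Complex.norm_real, Complex.norm_real,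
    Real.norm_eq_abs, Real.norm_eq_abs, abs_of_pos hs, abs_of_pos Real.pi_pos] at h3
  have h5 : ‖(2 : ℂ)‖ = 2 := by norm_num
  rw [h5] at h3
  have h6 : 2 * Real.pi * (‖f r‖ * s ^ r) ≤ 2 * Real.pi * B := by linarith
  exact le_of_mul_le_mul_left h6 hpi

theorem t_FOUR : S_FOUR := by
  intro p k q hq
  have h1 := int_sum p.natDegree (fun i => (p.coeff i : ℂ) * (q : ℂ) ^ i) k (-1) (Or.inr rfl)
  have h2 : (if k ≤ p.natDegree then (p.coeff k : ℂ) * (q : ℂ) ^ k else 0) =
      (p.coeff k : ℂ) * (q : ℂ) ^ k := by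
    split_ifs with h
    · rfl
    · rw [Polynomial.coeff_eq_zero_of_natDegree_lt (not_le.1 h), Int.cast_zero, zero_mul]
  rw [h2] at h1
  rw [← mul_assoc] at h1
  rw [← h1]
  refine intervalIntegral.integral_congr fun θ _ => ?_
  rw [Polynomial.aeval_eq_sum_range]
  congr 1
  · refine sum_congr rfl fun i _ => ?_
    rw [zsmul_eq_mul, mul_pow, ← Complex.exp_nat_mul, mul_assoc]
    congr 3
    push_cast
    ring
  · congr 1
    push_cast
    ring

end V5helper81.QC
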