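import Pool.Agent.V5helper19.QC.Stm

/-!
# Project QC, job MEAN2
-/

set_option autoImplicit false

namespace V5helper81.QC

open Finset
open V5helper19.QC (S_MEAN2 LD bb)

theorem bb_bound {α0 α : ℝ} (h0 : 0 < α0) (h : α0 ≤ α) {m : ℕ} (hm : 1 ≤ m) :
    ‖(m : ℂ) * bb ((m : ℂ) * (α : ℂ))‖ ≤
      1 / (1 - Real.exp (-α0)) * ((m : ℝ) ^ 1 * Real.exp (-α0) ^ m) := by
  set r := Real.exp (-α0) with hr
  have hr0 : 0 < r := Real.exp_pos _
  have hr1 : r < 1 := by
    rw [hr, ← Real.exp_zero]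
    exact Real.exp_lt_exp.2 (by linarith)
  have hm' : (1 : ℝ) ≤ m := by exact_mod_cast hm
  have e1 : (m : ℂ) * bb ((m : ℂ) * (α : ℂ)) =
      (((m : ℝ) * (1 / (Real.exp (m * α) - 1)) : ℝ) : ℂ) := by
    unfold bb
    push_cast
    rfl
  have e2 : Real.exp (m * α0) * r ^ m = 1 := by
    rw [hr, ← Real.exp_nat_mul, ← Real.exp_add]
    have : (m : ℝ) * α0 + m * -α0 = 0 := by ring
    rw [this, Real.exp_zero]
  have e3 : r ^ m ≤ r := by
    calc r ^ m ≤ r ^ 1 := pow_le_pow_of_le_one hr0.le hr1.le hm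
      _ = r := pow_one r
  have hrm : 0 < r ^ m := by positivity
  have e4 : Real.exp (m * α0) ≤ Real.exp (m * α) :=
    Real.exp_le_exp.2 (mul_le_mul_of_nonneg_left h (by linarith))
  have e5 : 1 - r ≤ (Real.exp (m * α) - 1) * r ^ m := by
    have : Real.exp (m * α0) * r ^ m ≤ Real.exp (m * α) * r ^ m :=
      mul_le_mul_of_nonneg_right e4 hrm.le
    nlinarith
  have e6 : 0 < Real.exp (m * α) - 1 := by
    have : 0 < m * α := by nlinarith
    have := Real.one_lt_exp_iff.2 this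
    linarith
  have e7 : 1 / (Real.exp (m * α) - 1) ≤ 1 / (1 - r) * r ^ m := by
    rw [div_le_iff₀ e6, div_mul_eq_mul_div, one_mul, div_mul_eq_mul_div, le_div_iff₀ (by linarith)]
    linarith
  rw [e1, Complex.norm_real, Real.norm_eq_abs, abs_of_nonneg (by positivity), pow_one]
  calc (m : ℝ) * (1 / (Real.exp (m * α) - 1)) ≤ m * (1 / (1 - r) * r ^ m) :=
        mul_le_mul_of_nonneg_left e7 (by linarith)
    _ = 1 / (1 - r) * (m * r ^ m) := by ring

theorem t_MEAN2 : S_MEAN2 := by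
  intro α0 h0
  set r := Real.exp (-α0) with hr
  have hr0 : 0 < r := Real.exp_pos _
  have hr1 : r < 1 := by
    rw [hr, ← Real.exp_zero]
    exact Real.exp_lt_exp.2 (by linarith)
  set G : ℕ → ℝ := fun m => 1 / (1 - r) * ((m : ℝ) ^ 1 * r ^ m) with hG
  have hGs : Summable G := by
    apply Summable.mul_left
    apply summable_pow_mul_geometric_of_norm_lt_one 1
    rw [Real.norm_eq_abs, abs_of_pos hr0]
    exact hr1
  have hG0 : ∀ m, 0 ≤ G m := by
    intro m
    have : 0 < 1 - r := by linarith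
    simp only [hG]
    positivity
  refine ⟨2 * ∑' m, G m, fun n α l hα hl => ?_⟩
  have e1 : |l| = ‖LD n (α : ℂ)‖ := by rw [hl, Complex.norm_real, Real.norm_eq_abs]
  rw [e1]
  unfold LD
  have e2 : ‖∑ j ∈ Icc 2 n, (((n + j : ℕ) : ℂ) * bb (((n + j : ℕ) : ℂ) * (α : ℂ)) -
      (j : ℂ) * bb ((j : ℂ) * (α : ℂ)))‖ ≤ ∑ j ∈ Icc 2 n, (G (n + j) + G j) := by
    refine (norm_sum_le _ _).trans (sum_le_sum fun j hj => ?_)
    obtain ⟨hj1, hj2⟩ := mem_Icc.1 hj
    refine (norm_sub_le _ _).trans (add_le_add ?_ ?_)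
    · exact bb_bound h0 hα (by omega)
    · exact bb_bound h0 hα (by omega)
  refine e2.trans ?_
  rw [sum_add_distrib, two_mul]
  refine add_le_add ?_ ?_
  · rw [← sum_image (s := Icc 2 n) (g := fun j => n + j) (f := G)
      (fun a _ b _ h => by simpa using h)]
    exact hGs.sum_le_tsum _ fun m _ => hG0 m
  · exact hGs.sum_le_tsum _ fun m _ => hG0 m

end V5helper81.QC
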